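import Pool.Agent.R759.SRTrap

/-! # A simplicial refinement which does not factor through the projection simplex -/

set_option autoImplicit false

namespace Pool.Agent.Results.MP_b12348_gt.NoFactorisation

open Pool.Agent.R759.SR

/-- `h = q ∘ k` as partial maps, with equality of domains: `h` is defined at `x` if and only if
`k` is defined at `x` and `q` is defined at `k x`, and then `h x = q (k x)`. -/
def IsComp {X' Y' Z' : Type*} [AddCommGroup X'] [Module ℝ X'] [AddCommGroup Y'] [Module ℝ Y']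
    [AddCommGroup Z'] [Module ℝ Z'] {X : Set X'} {Y : Set Y'} {Z : Set Z'}
    (h : PartialOnto X Z) (q : PartialOnto Y Z) (k : PartialOnto X Y) : Prop :=
  (∀ x, x ∈ h.dom ↔ ∃ hx : x ∈ k.dom, k.toFun ⟨x, hx⟩ ∈ q.dom) ∧
    ∀ (x : X') (hx : x ∈ h.dom) (hk : x ∈ k.dom) (hq : k.toFun ⟨x, hk⟩ ∈ q.dom),
      h.toFun ⟨x, hx⟩ = q.toFun ⟨k.toFun ⟨x, hk⟩, hq⟩

/-- The statement of the conjecture: for every non-simplicial polytope `C` with the extreme points
`c 1, …, c m`, and every simplicial refinement `(T, ΩT, f, g)` of `(C, ΩC)`, there are a refinement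
`(T₀, ΩT₀, p, g₀)` of `(C, ΩC)`, where `T₀` is the standard `(m - 1)`-simplex and `p` is the total
map with `p (e i) = c i`, and a simplicial refinement `(T, ΩT, f', g')` of `(T₀, ΩT₀)`, such that
`f = p ∘ f'` and `g = g₀ ∘ g'` as partial maps. -/
def Factorisation : Prop :=
  ∀ (V E : Type) [AddCommGroup V] [Module ℝ V] [FiniteDimensional ℝ V]
    [AddCommGroup E] [Module ℝ E] [FiniteDimensional ℝ E] (C : Set V),
    IsPolytope C → (∀ N : ℕ, ¬ IsSimplex C N) →
    ∀ (m : ℕ) (c : Fin m → V), Function.Injective c → Set.range c = C.extremePoints ℝ →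
    ∀ (T : Set E) (N : ℕ), IsSimplex T N → ∀ R : Refinement C T,
      ∃ R₀ : Refinement C (stdSimplex ℝ (Fin m)),
        R₀.f.dom = stdSimplex ℝ (Fin m) ∧ (∀ w : R₀.f.dom, R₀.f.toFun w = ∑ i, w.1 i • c i) ∧
        ∃ R' : Refinement (stdSimplex ℝ (Fin m)) T, IsComp R.f R₀.f R'.f ∧ IsComp R.g R₀.g R'.g

/-- weights which represent an exposed point -/
lemma weight_eq_one {V : Type} [AddCommGroup V] [Module ℝ V] {m : ℕ} (c : Fin m → V)
    (w : Fin m → ℝ) (hw : w ∈ stdSimplex ℝ (Fin m)) (j : Fin m) (hj : ∑ i, w i • c i = c j)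
    (u : V →ₗ[ℝ] ℝ) (hu : ∀ i, i ≠ j → u (c i) < u (c j)) : w = Pi.single j 1 := by
  classical
  have h1 : ∑ i, w i * (u (c j) - u (c i)) = 0 := by
    have h := congrArg u hj
    rw [map_sum] at h
    simp only [map_smul, smul_eq_mul] at h
    simp only [mul_sub]
    rw [Finset.sum_sub_distrib, ← Finset.sum_mul, hw.2, h]
    ring
  have h2 : ∀ i ∈ Finset.univ, 0 ≤ w i * (u (c j) - u (c i)) := by
    intro i _
    by_cases hij : i = j
    · rw [hij]; simp
    · exact mul_nonneg (hw.1 i) (by linarith [hu i hij])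
  have h3 := (Finset.sum_eq_zero_iff_of_nonneg h2).1 h1
  have h4 : ∀ i, i ≠ j → w i = 0 := by
    intro i hij
    rcases mul_eq_zero.1 (h3 i (Finset.mem_univ i)) with h | h
    · exact h
    · linarith [hu i hij]
  funext i
  by_cases hij : i = j
  · subst hij
    have h5 := hw.2
    rw [Finset.sum_eq_single i (fun b _ hb => h4 b hb) (fun h => absurd (Finset.mem_univ i) h)]
      at h5
    simp [h5]
  · rw [h4 i hij]
    simp [hij]

/-- The conjecture is false. -/
theorem result : ¬ Factorisation := by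
  classical
  intro hconj
  obtain ⟨R, hR, hRF⟩ := exists_trapRefinement
  obtain ⟨R₀, hR₀, hR₀F, R', hf, -⟩ := hconj (ℝ × ℝ) (Fin 5 → ℝ) trap trap_isPolytope
    trap_not_simplex 4 trapV trapV_injective trap_extreme.symm _ _ (isSimplex_stdSimplex (Fin 5)) R
  have hdom : ∀ k, trapX k ∈ R.f.dom := fun k => by
    rw [hR]
    exact subset_convexHull ℝ _ ⟨k, rfl⟩
  -- the values of `f'` at the vertices of the domain
  have hval : ∀ k, ∃ h : trapX k ∈ R'.f.dom, R'.f.toFun ⟨trapX k, h⟩ = Pi.single k 1 := by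
    intro k
    obtain ⟨hk, hk0⟩ := (hf.1 _).1 (hdom k)
    refine ⟨hk, ?_⟩
    refine weight_eq_one trapV _ (R₀.f.dom_subset hk0) k ?_ (trapU k)
      (fun i hi => trap_exposed k i hi)
    have h1 := hf.2 _ (hdom k) hk hk0
    rw [hR₀F, hRF, trapF_X] at h1
    exact h1.symm
  -- the first barycentric coordinate
  have hω : (fun t : stdSimplex ℝ (Fin 4) => (t : Fin 4 → ℝ) 0) ∈ Omega (stdSimplex ℝ (Fin 4)) := by
    refine ⟨fun x => ⟨x.2.1 0, ?_⟩, fun a b d t _ _ hd => ?_⟩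
    · rw [← x.2.2]
      exact Finset.single_le_sum (fun i _ => x.2.1 i) (Finset.mem_univ _)
    · exact congrFun hd 0
  rw [← R'.g.range_eq] at hω
  obtain ⟨α, hα⟩ := hω
  have hcomp : ∀ k, α.1 ⟨trapX k, trapX_mem k⟩ = (Pi.single k 1 : Fin 4 → ℝ) 0 := by
    intro k
    obtain ⟨hk, hk1⟩ := hval k
    have hmem : R'.f.toFun ⟨trapX k, hk⟩ ∈ stdSimplex ℝ (Fin 4) := by
      have h' : R'.f.toFun ⟨trapX k, hk⟩ ∈ Set.range R'.f.toFun := ⟨_, rfl⟩
      exact (Set.ext_iff.1 R'.f.range_eq _).1 h'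
    have h := R'.compat ⟨trapX k, hk⟩ α hmem
    rw [hα] at h
    simp only [hk1] at h
    exact h.symm
  have hΩ := R'.g.dom_subset α.2
  have hsing : ∀ i : Fin 5, (Pi.single i 1 : Fin 5 → ℝ) ∈ stdSimplex ℝ (Fin 5) := fun i =>
    single_mem_stdSimplex ℝ i
  have h0 := hcomp 0
  have h1 := hcomp 1
  rw [hΩ.2 ⟨_, hsing 0⟩ ⟨_, hsing 1⟩ ⟨trapX 0, trapX_mem 0⟩ (1 / 2) (by norm_num) (by norm_num) (by
    funext i
    fin_cases i <;> simp [trapX] <;> norm_num)] at h0
  rw [hΩ.2 ⟨_, hsing 1⟩ ⟨_, hsing 2⟩ ⟨trapX 1, trapX_mem 1⟩ (1 / 2) (by norm_num) (by norm_num) (by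
    funext i
    fin_cases i <;> simp [trapX] <;> norm_num)] at h1
  have b0 := hΩ.1 ⟨_, hsing 0⟩
  have b1 := hΩ.1 ⟨_, hsing 1⟩
  have b2 := hΩ.1 ⟨_, hsing 2⟩
  simp at h0 h1
  linarith [b0.2, b1.1, b2.1, b1.2]

end Pool.Agent.Results.MP_b12348_gt.NoFactorisation
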